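import Pool.Agent.H534R3.Local

/-!
# Differences of sets of normal vectors for multiplicatively independent integers

For multiplicatively independent integers `a, b > 1` and every `k` the set of the polynomials `g` of
degree at most `k` such that `g n * a ^ n` is uniformly distributed modulo one and `g n * b ^ n` is
not, is complete for the class of the differences of two sets of the third multiplicative class.

The proof constructs a continuous map from the Baire space to the reals which reduces
independently the convergence to infinity along the odd and the even indices to the normality in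
the bases `a` and `b`. The blocks that spoil the normality in one base are chosen by a second
moment argument for random sums whose spectrum is a Riesz product, averaged along an irrational
rotation; so they do not spoil the normality in the other base.
-/

set_option autoImplicit false

open Filter Topology

namespace Pool.Agent.Results.MP_df8ac3_lc.DifferenceComplete

/-- The sequence `x` is uniformly distributed modulo one. -/
def IsUD (x : ℕ → ℝ) : Prop := ∀ s t : ℝ, 0 ≤ s → s ≤ t → t ≤ 1 →
  Tendsto
    (fun N : ℕ =>
      (((Finset.range N).filter (fun n => s ≤ Int.fract (x n) ∧ Int.fract (x n) < t)).card : ℝ)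
        / (N : ℝ))
    atTop (nhds (t - s))

/-- The value at `n` of the polynomial of degree at most `k` with the coefficients `c`. -/
noncomputable def polyVal {k : ℕ} (c : Fin (k + 1) → ℝ) (n : ℕ) : ℝ :=
  ∑ i : Fin (k + 1), c i * (n : ℝ) ^ (i : ℕ)

/-- The set of the polynomials `g` of degree at most `k`, given by their coefficients, such that the
sequence `g n * a ^ n` is uniformly distributed modulo one. -/
def NN (a k : ℕ) : Set (Fin (k + 1) → ℝ) :=
  {c | IsUD (fun n => polyVal c n * (a : ℝ) ^ n)}

/-- `A` is a countable intersection of countable unions of closed sets. -/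
def IsPiThree {X : Type} [TopologicalSpace X] (A : Set X) : Prop :=
  ∃ F : ℕ → ℕ → Set X, (∀ i j, IsClosed (F i j)) ∧ A = ⋂ i, ⋃ j, F i j

/-- `D` is the difference of two sets of the third multiplicative class. -/
def IsDTwo {X : Type} [TopologicalSpace X] (D : Set X) : Prop :=
  ∃ A B : Set X, IsPiThree A ∧ IsPiThree B ∧ D = A \ B

/-- `D` is complete for the class of the differences of two sets of the third multiplicative class:
it belongs to the class and its complement does not. -/
def IsDTwoComplete {X : Type} [TopologicalSpace X] (D : Set X) : Prop :=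
  IsDTwo D ∧ ¬ IsDTwo Dᶜ

theorem piThree_preimage {X Y : Type} [TopologicalSpace X] [TopologicalSpace Y] {f : X → Y}
    (hf : Continuous f) {A : Set Y} (hA : IsPiThree A) : IsPiThree (f ⁻¹' A) := by
  obtain ⟨F, hF, rfl⟩ := hA
  refine ⟨fun i j => f ⁻¹' F i j, fun i j => (hF i j).preimage hf, ?_⟩
  simp only [Set.preimage_iInter, Set.preimage_iUnion]

theorem result (a b : ℕ) (ha : 1 < a) (hb : 1 < b)
    (hab : ∀ m n : ℕ, 0 < m → 0 < n → a ^ m ≠ b ^ n) (k : ℕ) :
    IsDTwoComplete (NN a k \ NN b k) := by
  have hN : ∀ c : ℕ, IsPiThree (NN c k) := by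
    intro c
    obtain ⟨F, hF, hFe⟩ := Pool.Agent.H534R3.UDist.ud_piThree
      (fun (v : Fin (k + 1) → ℝ) (n : ℕ) => polyVal v n * (c : ℝ) ^ n)
      (fun n => by
        unfold polyVal
        fun_prop)
    exact ⟨F, hF, hFe⟩
  refine ⟨⟨_, _, hN a, hN b, rfl⟩, ?_⟩
  rintro ⟨A, B, hA, hB, hAB⟩
  obtain ⟨g, hg, hga, hgb⟩ := Pool.Agent.H534R3.Rota.reduce_pair a b ha hb hab
  set ι : (ℕ → ℕ) → Fin (k + 1) → ℝ := fun w i => if i = 0 then g w else 0 with hι
  have hιc : Continuous ι := by
    refine continuous_pi fun i => ?_
    by_cases hi : i = 0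
    · simp only [hι, hi, if_true]
      exact hg
    · simp only [hι, hi, if_false]
      exact continuous_const
  have hval : ∀ w n, polyVal (ι w) n = g w := by
    intro w n
    rw [polyVal, Finset.sum_eq_single 0]
    · simp [hι]
    · intro i _ hi
      simp [hι, hi]
    · intro h
      exact absurd (Finset.mem_univ _) h
  have hmem : ∀ (c : ℕ) (w : ℕ → ℕ), ι w ∈ NN c k ↔
      Pool.Agent.H534R3.UDist.UD (fun n => g w * (c : ℝ) ^ n) := by
    intro c w
    change IsUD (fun n => polyVal (ι w) n * (c : ℝ) ^ n) ↔ _
    simp only [hval]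
    rfl
  obtain ⟨F, hF, hFe⟩ := piThree_preimage hιc hA
  obtain ⟨F', hF', hFe'⟩ := piThree_preimage hιc hB
  refine Pool.Agent.H534R3.Rota.no_dual
    (fun w t => ∀ e, ∃ J, ∀ j, J ≤ j → Pool.Agent.H534R3.Rota.ty j = t → e ≤ w j)
    (fun w t => Iff.rfl) F F' hF hF' ?_
  rw [← hFe, ← hFe', ← Set.preimage_sdiff, ← hAB, Set.preimage_compl]
  congr 1
  ext w
  change _ ↔ ι w ∈ NN a k ∧ ι w ∉ NN b k
  rw [hmem, hmem, hga, hgb]
  rfl

end Pool.Agent.Results.MP_df8ac3_lc.DifferenceComplete
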